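import Pool.Agent.H17.CP2.TRV

/-! Module NF for MP_397744_co: normal form. -/

namespace Pool.Agent.H17.CP2

open Pool.Agent.H57.CP

lemma iso_mul {g h : Equiv.Perm H3} (hg : IsIso g) (hh : IsIso h) : IsIso (g * h) := by
  intro x y
  rw [Equiv.Perm.mul_apply, Equiv.Perm.mul_apply, hg, hh]

lemma iso_inv {g : Equiv.Perm H3} (hg : IsIso g) : IsIso g⁻¹ := by
  intro x y
  have := hg (g⁻¹ x) (g⁻¹ y)
  rw [← this]
  simp

theorem nf (h1 : T_LOR) (h2 : T_MKI) (h3 : T_TRV) (h4 : T_OAX) : T_NF := by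
  intro v v' S hne hS hSv
  obtain ⟨C1, hC1, hC1v⟩ := h3 v
  have hg : IsIso (C1 * S * C1⁻¹) := iso_mul (iso_mul hC1 hS) (iso_inv hC1)
  have hgo : (C1 * S * C1⁻¹) o = o := by
    have : C1⁻¹ o = v := by rw [← hC1v]; simp
    rw [Equiv.Perm.mul_apply, Equiv.Perm.mul_apply, this, hSv, hC1v]
  obtain ⟨C2, t, d, hC2, hC2o, hd, hE⟩ := h4 _ hg hgo
  set w := C2 (C1 v') with hw
  let z : ℂ := ⟨w.1 0, w.1 1⟩
  set θ := Complex.arg z with hθ
  have hre : ‖z‖ * Real.cos θ = w.1 0 := Complex.norm_mul_cos_arg z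
  have him : ‖z‖ * Real.sin θ = w.1 1 := Complex.norm_mul_sin_arg z
  obtain ⟨C3, hC3, hE3⟩ := h2 _ (h1.1 (-θ) 1 (Or.inl rfl))
  have hC3o : C3 o = o := by
    apply H3_ext <;>
    · rw [← hE3 o]
      simp [rot, o]
  refine ⟨C3 * C2 * C1, t, d, ‖z‖, w.1 2, iso_mul (iso_mul hC3 hC2) hC1, hd, ?_, ?_,
    norm_nonneg _, ?_⟩
  · rw [Equiv.Perm.mul_apply, Equiv.Perm.mul_apply, hC1v, hC2o, hC3o]
  · rw [Equiv.Perm.mul_apply, Equiv.Perm.mul_apply, ← hw]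
    apply H3_ext
    · rw [← hE3 w]
      simp only [rot, LinearMap.coe_mk, AddHom.coe_mk, Matrix.cons_val, Real.cos_neg,
        Real.sin_neg, pt, ← hre, ← him]
      have := Real.sin_sq_add_cos_sq θ
      linear_combination ‖z‖ * this
    · rw [← hE3 w]
      simp only [rot, LinearMap.coe_mk, AddHom.coe_mk, Matrix.cons_val, Real.cos_neg,
        Real.sin_neg, pt, ← hre, ← him]
      ring
    · rw [← hE3 w]
      simp only [rot, LinearMap.coe_mk, AddHom.coe_mk, Matrix.cons_val, pt]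
      ring
  · intro y
    obtain ⟨u, rfl⟩ : ∃ u, C3 u = y := ⟨C3⁻¹ y, by simp⟩
    have e : (C3 * C2 * C1 * S * (C3 * C2 * C1)⁻¹) (C3 u) =
        C3 ((C2 * (C1 * S * C1⁻¹) * C2⁻¹) u) := by
      simp [Equiv.Perm.mul_apply, mul_inv_rev]
    rw [e, ← hE3, ← hE3, ← hE u]
    ext i
    fin_cases i <;> simp [rot] <;> ring

end Pool.Agent.H17.CP2
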