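import Pool.Agent.H17.CP2.NGC

/-! Module NGA for MP_397744_co: non degeneracy. -/

namespace Pool.Agent.H17.CP2

open Pool.Agent.H57.CP

/-- a Lorentz map is determined on the point `g x` -/
lemma ext_val {A : V4 →ₗ[ℝ] V4} {g : Equiv.Perm H3} (h : Ext A g) (x : H3) (i : Fin 4) :
    (g x).1 i = A x.1 i := by rw [h]

lemma pt_val (x y z : ℝ) : (pt x y z).1 = ![x, y, z, Real.sqrt (1 + x ^ 2 + y ^ 2 + z ^ 2)] := rfl

lemma o_vec : o.1 = ![0, 0, 0, 1] := rfl

theorem nga (h1 : T_LOR) (h2 : T_MKI) (h3 : T_EXT) (_h4 : T_SPN) : T_NGA := by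
  intro S T t d x z hN
  obtain ⟨hcore, hS, hd, hx0⟩ := hN
  have hdd : d * d = 1 := by rcases hd with rfl | rfl <;> norm_num
  have hcs := Real.sin_sq_add_cos_sq t
  -- if `x = 0` or `sin t = 0` then `S (S v') = v'`
  have key : ¬ (x = 0 ∨ Real.sin t = 0) := by
    intro h
    apply hcore.S2
    have e : (S (S (pt x 0 z))).1 = rot t d (rot t d (pt x 0 z).1) := by
      rw [hS, hS]
    have hxs : x * Real.sin t = 0 := by
      rcases h with h | h <;> rw [h] <;> ring
    apply H3_ext <;> rw [e] <;> simp only [rot_apply, pt_val, Matrix.cons_val]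
    · linear_combination x * hcs - 2 * Real.sin t * hxs
    · linear_combination 2 * Real.cos t * hxs
    · linear_combination z * hdd
  push Not at key
  refine ⟨key.1, key.2, ?_⟩
  rintro rfl
  have hx := key.1
  -- the isometry `R`
  let e3 : V4 := ![0, 0, 0, 1]
  let e0 : V4 := ![1, 0, 0, 0]
  have hL := (h1.2.1 e3 e0 (by simp [mk, e3]) (by simp [mk, e0]) (by simp [mk, e3, e0])).1
  obtain ⟨R, hR, hRE⟩ := h2 _ hL
  have hR0 : ∀ y, (R y).1 0 = y.1 0 := by
    intro y
    rw [ext_val hRE, ht_apply]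
    simp [mk, e3, e0]
    ring
  have hR1 : ∀ y, (R y).1 1 = -y.1 1 := by
    intro y
    rw [ext_val hRE, ht_apply]
    simp [mk, e3, e0]
  have hR2 : ∀ y, (R y).1 2 = -y.1 2 := by
    intro y
    rw [ext_val hRE, ht_apply]
    simp [mk, e3, e0]
  have hR3 : ∀ y, (R y).1 3 = y.1 3 := by
    intro y
    rw [ext_val hRE, ht_apply]
    simp [mk, e3, e0]
    ring
  obtain ⟨A, hA, hAT⟩ := h3 T hcore.iT
  set τ : ℝ := Real.sqrt (1 + x ^ 2 + 0 ^ 2 + 0 ^ 2) with hτ
  have hAo : A o.1 = (pt x 0 0).1 := by rw [hAT, hcore.Tv]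
  have hAv : A (pt x 0 0).1 = o.1 := by rw [hAT, hcore.Tv']
  -- components 3 and 0
  have c3 : ∀ y : V4, A y 3 = τ * y 3 - x * y 0 := by
    intro y
    have := hA.1 y (pt x 0 0).1
    rw [hAv] at this
    simp only [mk, o_vec, pt_val, Matrix.cons_val] at this
    rw [← hτ] at this
    linarith
  have c0 : ∀ y : V4, x * A y 0 = τ * A y 3 - y 3 := by
    intro y
    have := hA.1 y o.1
    rw [hAo] at this
    simp only [mk, o_vec, pt_val, Matrix.cons_val] at this
    rw [← hτ] at this
    linarith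
  -- components 1 and 2 of `A` on the span of `o` and `v'`
  have c12 : ∀ y : V4, y 1 = 0 → y 2 = 0 → A y 1 = 0 ∧ A y 2 = 0 := by
    intro y y1 y2
    have e : y = (y 3 - y 0 / x * τ) • o.1 + (y 0 / x) • (pt x 0 0).1 := by
      ext i
      fin_cases i
      · simp [o_vec, pt_val]
        field_simp
      · simp [o_vec, pt_val, y1]
      · simp [o_vec, pt_val, y2]
      · simp [o_vec, pt_val]
        rw [hτ]
        simp
    have e2 : A y = (y 3 - y 0 / x * τ) • (pt x 0 0).1 + (y 0 / x) • o.1 := by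
      conv_lhs => rw [e]
      rw [map_add, map_smul, map_smul, hAo, hAv]
    rw [e2]
    constructor <;> simp [o_vec, pt_val]
  apply hcore.noR
  refine ⟨R, hR, ?_, ?_, fun y _ => ⟨?_, ?_⟩⟩
  · apply H3_ext
    · rw [hR0]
    · rw [hR1]; simp [o_vec]
    · rw [hR2]; simp [o_vec]
  · apply H3_ext
    · rw [hR0]
    · rw [hR1]; simp [pt_val]
    · rw [hR2]; simp [pt_val]
  · have : S (R (S y)) = R y := by
      apply H3_ext
      · rw [hR0, ext_val hS]
        simp only [rot_apply, Matrix.cons_val, hR0, hR1, ext_val hS]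
        linear_combination y.1 0 * hcs
      · rw [hR1, ext_val hS]
        simp only [rot_apply, Matrix.cons_val, hR0, hR1, ext_val hS]
        linear_combination (-y.1 1) * hcs
      · rw [hR2, ext_val hS]
        simp only [rot_apply, Matrix.cons_val, hR2, ext_val hS]
        linear_combination (-y.1 2) * hdd
    rw [← this]
    simp
  · have s0 : A (R y).1 0 = A y.1 0 := by
      apply mul_left_cancel₀ hx
      rw [c0, c0, c3, c3, hR0, hR3]
    have s12 := c12 ((R y).1 + y.1) (by simp [hR1]) (by simp [hR2])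
    rw [map_add] at s12
    simp only [Pi.add_apply] at s12
    apply H3_ext
    · rw [hR0, ext_val hAT, ext_val hAT, s0]
    · rw [hR1, ext_val hAT, ext_val hAT]
      linarith [s12.1]
    · rw [hR2, ext_val hAT, ext_val hAT]
      linarith [s12.2]

end Pool.Agent.H17.CP2
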