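import Pool.Agent.H17.CP2.NF

/-! Module NGC for MP_397744_co: rotations are excluded for finite faces. -/

namespace Pool.Agent.H17.CP2

open Pool.Agent.H57.CP

lemma rot_apply (t d : ℝ) (x : V4) : rot t d x =
    ![Real.cos t * x 0 - Real.sin t * x 1, Real.sin t * x 0 + Real.cos t * x 1, d * x 2, x 3] := rfl

lemma ht_apply (a b x : V4) (i : Fin 4) :
    ht a b x i = -x i + 2 * mk a x * a i - 2 * mk b x * b i := rfl

lemma rot_inv (t : ℝ) (x : V4) : rot (-t) 1 (rot t 1 x) = x := by
  have := Real.sin_sq_add_cos_sq t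
  ext i
  fin_cases i <;> simp only [rot_apply, Matrix.cons_val, Real.cos_neg, Real.sin_neg, Fin.zero_eta,
    Fin.mk_one, Fin.reduceFinMk]
  · linear_combination x 0 * this
  · linear_combination x 1 * this
  · ring

lemma ext_inv {t : ℝ} {S : Equiv.Perm H3} (h : Ext (rot t 1) S) : Ext (rot (-t) 1) S⁻¹ := by
  intro y
  obtain ⟨u, rfl⟩ : ∃ u, S u = y := ⟨S⁻¹ y, by simp⟩
  rw [← h u, rot_inv]
  simp

theorem ngc (h1 : T_LOR) (_h2 : T_SPN) : T_NGC := by
  intro S T t a b n hN hs hS hT hn hpow
  have hSi := ext_inv hS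
  set g : Equiv.Perm H3 := T * S⁻¹ with hg
  have hM : ∀ y : H3, ht a b (rot (-t) 1 y.1) = (g y).1 := by
    intro y
    rw [hSi y, hT]
    rfl
  set w : V4 := ∑ k ∈ Finset.range n, ((g ^ k) o).1 with hw
  have hMw : ht a b (rot (-t) 1 w) = w := by
    have e1 : ht a b (rot (-t) 1 w) = ∑ k ∈ Finset.range n, ((g ^ (k + 1)) o).1 := by
      rw [hw, map_sum, map_sum]
      refine Finset.sum_congr rfl fun k _ => ?_
      rw [hM, pow_succ']
      rfl
    have e2 := Finset.sum_range_succ (fun k => ((g ^ k) o).1) n
    have e3 := Finset.sum_range_succ' (fun k => ((g ^ k) o).1) n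
    rw [e1, hw]
    simp only [hpow, pow_zero] at e2 e3
    rw [e2] at e3
    exact (add_right_cancel e3).symm
  have hw3 : 0 < w 3 := by
    rw [hw, Finset.sum_apply]
    refine Finset.sum_pos (fun k _ => ((g ^ k) o).2.2) ⟨0, Finset.mem_range.2 hn⟩
  have hAA : ∀ x, ht a b (ht a b x) = x := by
    intro x
    have := (h1.2.1 a b hN.aa hN.bb hN.ab).2
    exact congrArg (fun f : V4 →ₗ[ℝ] V4 => f x) this
  have hSA : rot (-t) 1 w = ht a b w := by
    have := hAA (rot (-t) 1 w)
    rw [hMw] at this
    exact this.symm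
  set y : V4 := w - rot (-t) 1 w with hy
  have hAy : ht a b y = -y := by
    rw [hy, map_sub, hMw, ← hSA]
    abel
  have hy2 : y 2 = 0 := by
    rw [hy]
    simp [rot_apply]
  have hy3 : y 3 = 0 := by
    rw [hy]
    simp [rot_apply]
  have hrel : ∀ i, mk a y * a i = mk b y * b i := by
    intro i
    have := congrFun hAy i
    rw [ht_apply] at this
    simp only [Pi.neg_apply] at this
    linarith
  have hmay : mk a y = 0 := by
    have := hrel 3
    rw [hN.b3, mul_zero] at this
    rcases mul_eq_zero.1 this with h | h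
    · exact h
    · exact absurd h hN.a3.ne'
  have hmby : mk b y = 0 := by
    have := hrel 1
    rw [hmay, zero_mul] at this
    rcases mul_eq_zero.1 this.symm with h | h
    · exact h
    · exact absurd h hN.b1
  have hy0 : y 0 = 0 := by
    have : mk a y = -(a 0 * y 0) := by
      simp only [mk, hy2, hy3, hN.a1]
      ring
    rw [this, neg_eq_zero] at hmay
    rcases mul_eq_zero.1 hmay with h | h
    · exact absurd h hN.a0
    · exact h
  have hy1 : y 1 = 0 := by
    have : mk b y = -(b 1 * y 1) := by
      simp only [mk, hy2, hy3, hy0]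
      ring
    rw [this, neg_eq_zero] at hmby
    rcases mul_eq_zero.1 hmby with h | h
    · exact absurd h hN.b1
    · exact h
  -- `w 0 = w 1 = 0`
  have e0 : (Real.cos t - 1) * w 0 + Real.sin t * w 1 = 0 := by
    have : y 0 = w 0 - (Real.cos (-t) * w 0 - Real.sin (-t) * w 1) := rfl
    rw [hy0, Real.cos_neg, Real.sin_neg] at this
    linarith
  have e1 : -Real.sin t * w 0 + (Real.cos t - 1) * w 1 = 0 := by
    have : y 1 = w 1 - (Real.sin (-t) * w 0 + Real.cos (-t) * w 1) := rfl
    rw [hy1, Real.cos_neg, Real.sin_neg] at this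
    linarith
  have hdet : 0 < (Real.cos t - 1) ^ 2 + Real.sin t ^ 2 := by positivity
  have hw0 : w 0 = 0 := by
    have : ((Real.cos t - 1) ^ 2 + Real.sin t ^ 2) * w 0 = 0 := by
      linear_combination (Real.cos t - 1) * e0 - Real.sin t * e1
    rcases mul_eq_zero.1 this with h | h
    · exact absurd h hdet.ne'
    · exact h
  have hw1 : w 1 = 0 := by
    have : ((Real.cos t - 1) ^ 2 + Real.sin t ^ 2) * w 1 = 0 := by
      linear_combination Real.sin t * e0 + (Real.cos t - 1) * e1
    rcases mul_eq_zero.1 this with h | h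
    · exact absurd h hdet.ne'
    · exact h
  have hyz : y = 0 := by
    ext i
    fin_cases i
    · exact hy0
    · exact hy1
    · exact hy2
    · exact hy3
  have hAw : ht a b w = w := by
    rw [← hSA]
    have : w - rot (-t) 1 w = 0 := hyz
    exact (sub_eq_zero.1 this).symm
  have hwi : ∀ i, w i = mk a w * a i - mk b w * b i := by
    intro i
    have := congrFun hAw i
    rw [ht_apply] at this
    linarith
  have hb : mk b w = 0 := by
    have := hwi 1
    rw [hw1, hN.a1] at this
    have h : mk b w * b 1 = 0 := by linarith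
    rcases mul_eq_zero.1 h with h | h
    · exact h
    · exact absurd h hN.b1
  have ha : mk a w = 0 := by
    have := hwi 0
    rw [hw0, hb] at this
    have h : mk a w * a 0 = 0 := by linarith
    rcases mul_eq_zero.1 h with h | h
    · exact h
    · exact absurd h hN.a0
  have := hwi 3
  rw [ha, hb] at this
  linarith

end Pool.Agent.H17.CP2
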