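import Pool.Agent.H57.CP.Targets

/-! Module TRV for MP_397744_co: transitivity; basic lemmas. -/

namespace Pool.Agent.H17.CP2

open Pool.Agent.H57.CP

lemma mk_self (x : H3) : mk x.1 x.1 = 1 := x.2.1

lemma time_sq (x : H3) : x.1 3 ^ 2 = 1 + x.1 0 ^ 2 + x.1 1 ^ 2 + x.1 2 ^ 2 := by
  have := mk_self x
  simp only [mk] at this
  linarith

/-- a point is determined by its space coordinates -/
lemma H3_ext {x y : H3} (h0 : x.1 0 = y.1 0) (h1 : x.1 1 = y.1 1) (h2 : x.1 2 = y.1 2) :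
    x = y := by
  have hx := time_sq x
  have hy := time_sq y
  have h3 : x.1 3 = y.1 3 := by
    have hp := x.2.2
    have hq := y.2.2
    have : x.1 3 ^ 2 = y.1 3 ^ 2 := by rw [hx, hy, h0, h1, h2]
    exact (sq_eq_sq₀ hp.le hq.le).1 this
  apply Subtype.ext
  funext i
  fin_cases i
  · exact h0
  · exact h1
  · exact h2
  · exact h3

lemma o_val (i : Fin 4) : o.1 i = ![0, 0, 0, 1] i := rfl

theorem trv (h1 : T_LOR) (h2 : T_MKI) : T_TRV := by
  intro v
  by_cases hv : v = o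
  · exact ⟨1, fun x y => rfl, by simpa using hv⟩
  have ht := time_sq v
  have hp := v.2.2
  have hgt : 1 < v.1 3 := by
    by_contra hle
    push Not at hle
    apply hv
    have hsq : v.1 3 ^ 2 ≤ 1 := by nlinarith
    have s0 : v.1 0 = 0 := by nlinarith [sq_nonneg (v.1 0), sq_nonneg (v.1 1), sq_nonneg (v.1 2)]
    have s1 : v.1 1 = 0 := by nlinarith [sq_nonneg (v.1 0), sq_nonneg (v.1 1), sq_nonneg (v.1 2)]
    have s2 : v.1 2 = 0 := by nlinarith [sq_nonneg (v.1 0), sq_nonneg (v.1 1), sq_nonneg (v.1 2)]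
    exact H3_ext (by rw [s0]; rfl) (by rw [s1]; rfl) (by rw [s2]; rfl)
  set s : ℝ := Real.sqrt (2 * v.1 3 - 2) with hs
  have hspos : 0 < s := Real.sqrt_pos.2 (by linarith)
  have hs2 : s ^ 2 = 2 * v.1 3 - 2 := Real.sq_sqrt (by linarith)
  let a : V4 := ![v.1 0 / s, v.1 1 / s, v.1 2 / s, (v.1 3 - 1) / s]
  have haa : mk a a = -1 := by
    simp only [mk, a, Matrix.cons_val]
    field_simp
    rw [hs2]
    nlinarith
  obtain ⟨g, hg, hgE⟩ := h2 _ (h1.2.2 a haa).1
  refine ⟨g, hg, ?_⟩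
  have hE := hgE v
  have hav : 2 * mk a v.1 = -s := by
    simp only [mk, a, Matrix.cons_val]
    have : v.1 3 ^ 2 - v.1 0 ^ 2 - v.1 1 ^ 2 - v.1 2 ^ 2 = 1 := by linarith
    field_simp
    rw [hs2]
    nlinarith
  have hc : ∀ i, (g v).1 i = v.1 i - s * a i := by
    intro i
    rw [← hE]
    change v.1 i + 2 * mk a v.1 * a i = _
    rw [hav]
    ring
  apply H3_ext
  · rw [hc]
    simp only [a, Matrix.cons_val]
    field_simp
    simp [o]
  · rw [hc]
    simp only [a, Matrix.cons_val]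
    field_simp
    simp [o]
  · rw [hc]
    simp only [a, Matrix.cons_val]
    field_simp
    simp [o]

end Pool.Agent.H17.CP2
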